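import Pool.Agent.SGL.StmtsA

/-!
# Squad SGL, row FOK: a flip of an edge outside `G` in a non-facial triangle
-/

set_option autoImplicit false

namespace Pool.Agent.SGL.H80

open Pool.Agent.SGE Pool.Agent.SGP Pool.Agent.SGY Pool.Agent.SGD Pool.Agent.SGL

/-- row FOK -/
theorem fok (flp : FlpStmt) (nad : NadStmt) (flt : FltStmt) : FokStmt := by
  intro V _ G R E Φ a x y z u v hG h hn hxy hu hv
  obtain ⟨huv, hE, ⟨hux, huy, -⟩, ⟨hvx, hvy, -⟩, -⟩ := nad h.sph hn hu hv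
  have hs := h.sph
  have hne : x ≠ y := by
    rintro rfl
    exact hs.irr _ hn.1
  have eyu : E y u := hs.fe _ _ _ (hs.rot _ _ _ hu)
  have eux : E u x := hs.fe _ _ _ (hs.rot _ _ _ (hs.rot _ _ _ hu))
  have exv : E x v := hs.fe _ _ _ (hs.rot _ _ _ hv)
  have hle : ∀ p q, G p q → flE E x y u v p q := by
    intro p q hpq
    refine Or.inl ⟨h.le p q hpq, ?_⟩
    rintro (⟨rfl, rfl⟩ | ⟨rfl, rfl⟩)
    · exact hxy hpq
    · exact hxy (hG _ _ hpq)
  refine ⟨flp hs hu hv huv hE, hle, ?_, ?_⟩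
  · intro p
    rw [← h.rel p]
    constructor
    · rintro ⟨q, (⟨hpq, -⟩ | ⟨rfl, rfl⟩ | ⟨rfl, rfl⟩)⟩
      · exact ⟨q, hpq⟩
      · exact ⟨x, eux⟩
      · exact ⟨x, hs.sym _ _ exv⟩
    · rintro ⟨q, hpq⟩
      by_cases hi : isE x y p q
      · rcases hi with ⟨rfl, rfl⟩ | ⟨rfl, rfl⟩
        · refine ⟨u, Or.inl ⟨hs.sym _ _ eux, ?_⟩⟩
          rintro (⟨-, h1⟩ | ⟨h1, -⟩)
          · exact huy h1
          · exact hne h1
        · refine ⟨u, Or.inl ⟨eyu, ?_⟩⟩
          rintro (⟨h1, -⟩ | ⟨-, h1⟩)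
          · exact hne h1.symm
          · exact hux h1
      · exact ⟨q, Or.inl ⟨hpq, hi⟩⟩
  · intro p q r hnf hpq hqr hrp
    rcases flt hs hu hv huv hE p q r hnf with ⟨h1, -⟩ | ⟨w, -, -, -, -, hset⟩
    · exact h.tri p q r h1 hpq hqr hrp
    · exfalso
      have hGuv : ¬ G u v := fun h1 => hE (h.le _ _ h1)
      have hGvu : ¬ G v u := fun h1 => hE (h.le _ _ (hG _ _ h1))
      have hmu : u ∈ ({p, q, r} : Set V) := by
        rw [hset]
        simp
      have hmv : v ∈ ({p, q, r} : Set V) := by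
        rw [hset]
        simp
      simp only [Set.mem_insert_iff, Set.mem_singleton_iff] at hmu hmv
      rcases hmu with rfl | rfl | rfl <;> rcases hmv with rfl | rfl | rfl
      · exact huv rfl
      · exact hGuv hpq
      · exact hGvu hrp
      · exact hGvu hpq
      · exact huv rfl
      · exact hGuv hqr
      · exact hGuv hrp
      · exact hGvu hqr
      · exact huv rfl

end Pool.Agent.SGL.H80
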