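import Pool.Agent.SGL.StmtsU

/-!
# Squad SGL, row PDL: the slices
-/

set_option autoImplicit false

namespace Pool.Agent.SGL.H80

open Pool.Agent.SGE Pool.Agent.SGP Pool.Agent.SGY Pool.Agent.SGD Pool.Agent.SGL Filter

theorem cu_a {V : Type} (a : V) (s : V → ℕ) (x y : V → ℝ) (B W : ℝ) :
    cu a s x y B W a = (W, 0) := by
  unfold cu
  rw [if_pos rfl]

theorem cu_ne {V : Type} {a v : V} (h : v ≠ a) (s : V → ℕ) (x y : V → ℝ) (B W : ℝ) :
    cu a s x y B W v = (x v, B ^ s v + y v) := by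
  unfold cu
  rw [if_neg h]

/-- row PDL -/
theorem pdl (psg : PsgStmt) (psa : PsaStmt) : PdlStmt := by
  intro V _ a b c E F h s x y ρ hc hca hP hρ
  classical
  obtain ⟨g1, g2⟩ := psg s x y
  have e1 : ∀ᶠ B : ℝ in atTop, ∀ u v w, s u < s w → s v < s w → x u < x v →
      0 < o (x u, B ^ s u + y u) (x v, B ^ s v + y v) (x w, B ^ s w + y w) := by
    simp only [Filter.eventually_all, Filter.eventually_imp_distrib_left]
    exact g1
  have e2 : ∀ᶠ B : ℝ in atTop, ∀ u v w, s u < s v → s v = s w → x w < x v →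
      0 < o (x u, B ^ s u + y u) (x v, B ^ s v + y v) (x w, B ^ s w + y w) := by
    simp only [Filter.eventually_all, Filter.eventually_imp_distrib_left]
    exact g2
  have e3 : ∀ᶠ B : ℝ in atTop, ∀ᶠ W : ℝ in atTop, ∀ u w, s u < s w →
      0 < o (x u, B ^ s u + y u) (W, 0) (x w, B ^ s w + y w) := by
    simp only [Filter.eventually_all, Filter.eventually_imp_distrib_left]
    exact fun u w huw => psa s x y u w (Or.inl huw)
  have e4 : ∀ᶠ W : ℝ in atTop, ∀ p, x p < W :=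
    Filter.eventually_all.2 fun p => eventually_gt_atTop (x p)
  filter_upwards [e1, e2, e3] with B h1 h2 h3
  filter_upwards [h3, e4] with W h3 h4
  refine ⟨?_, ?_, ?_, ?_, ?_, ?_⟩
  · intro p hp q hq r hr hpq hρpq hrp
    rw [cu_ne hp.2, cu_ne hq.2, cu_ne hr.2, ← o_rot]
    exact h2 r q p (by omega) hpq.symm (hρ p hp q hq hρpq)
  · intro p hp q hq r hr hpq hρpq hpr
    rw [cu_ne hp.2, cu_ne hq.2, cu_ne hr.2]
    exact h1 p q r hpr (by omega) (hρ p hp q hq hρpq)
  · intro p hp q hq hpq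
    rw [cu_ne hp.2, cu_ne hq.2, cu_a, ← o_rot]
    exact h3 p q hpq
  · intro p hp q hq hpc hpq
    rw [cu_ne hp.2, cu_ne hq.2, cu_ne hca]
    have hsc := hP.sc
    have hsq := hP.sl q hq
    exact h1 c p q (by omega) hpq (hP.cx p hp hpc (by omega))
  · intro p hp q hq hpq
    rw [cu_ne hp.2, cu_ne hq.2]
    exact hρ p hp q hq hpq
  · intro p hp
    rw [cu_ne hp.2, cu_a]
    exact h4 p

end Pool.Agent.SGL.H80
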